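import Pool.Agent.Y716.C.Defs

/-!
# The `p`-adic data of a system of forms without degenerate approximate zeros (job C5)
-/

set_option autoImplicit false

namespace Pool.Agent.Y813.C5

/-- A matrix over the integers whose rows have no combination with a coefficient one divisible by
`p ^ ℓ`: the multiples of `p ^ ℓ` are in the image modulo `p ^ (ℓ + 1)`. -/
theorem surj {ι : Type*} [Fintype ι] {s : ℕ} (M : Fin s → ι → ℤ) {p : ℕ} (hp : p.Prime) (ℓ : ℕ)
    (h : ∀ (j₀ : Fin s) (l : Fin s → ℤ), l j₀ = 1 → ¬ ∀ i, (p : ℤ) ^ ℓ ∣ ∑ j, l j * M j i)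
    (b : Fin s → ℤ) : ∃ z : ι → ℤ, ∀ j, (p : ℤ) ^ (ℓ + 1) ∣ ∑ i, M j i * z i - p ^ ℓ * b j := by
  classical
  let f1 : (ι → ℤ) →+ (Fin s → ℤ) :=
    { toFun := fun z j => ∑ i, M j i * z i
      map_zero' := by ext j; simp
      map_add' := fun x y => by
        ext j
        simp only [Pi.add_apply, mul_add, Finset.sum_add_distrib] }
  let f2 : (Fin s → ℤ) →+ (Fin s → ℤ) :=
    { toFun := fun y j => (p : ℤ) ^ (ℓ + 1) * y j
      map_zero' := by ext j; simp
      map_add' := fun x y => by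
        ext j
        simp only [Pi.add_apply, mul_add] }
  let Λ : AddSubgroup (Fin s → ℤ) := f1.range ⊔ f2.range
  have hp0 : (p : ℤ) ≠ 0 := by exact_mod_cast hp.ne_zero
  have hpq : (p : ℚ) ≠ 0 := by exact_mod_cast hp.ne_zero
  have key : (fun j => (p : ℤ) ^ ℓ * b j) ∈ Λ := by
    by_contra hcon
    have hne : (QuotientAddGroup.mk (fun j => (p : ℤ) ^ ℓ * b j) : (Fin s → ℤ) ⧸ Λ) ≠ 0 := by
      intro h0
      exact hcon ((QuotientAddGroup.eq_zero_iff _).1 h0)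
    obtain ⟨c, hc⟩ := CharacterModule.exists_character_apply_ne_zero_of_ne_zero hne
    let φ : (Fin s → ℤ) →+ AddCircle (1 : ℚ) :=
      AddMonoidHom.comp (c : ((Fin s → ℤ) ⧸ Λ) →+ AddCircle (1 : ℚ)) (QuotientAddGroup.mk' Λ)
    have hφΛ : ∀ x ∈ Λ, φ x = 0 := by
      intro x hx
      have : (QuotientAddGroup.mk' Λ) x = 0 := (QuotientAddGroup.eq_zero_iff _).2 hx
      change c ((QuotientAddGroup.mk' Λ) x) = 0
      rw [this]
      exact map_zero c
    have hφb : φ (fun j => (p : ℤ) ^ ℓ * b j) ≠ 0 := hc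
    have hl : ∀ j, ∃ l : ℤ, φ (Pi.single j 1) = (((l : ℚ) / (p : ℚ) ^ (ℓ + 1) : ℚ) :
        AddCircle (1 : ℚ)) := by
      intro j
      obtain ⟨q, hq⟩ := QuotientAddGroup.mk_surjective (φ (Pi.single j 1))
      have h1 : (p ^ (ℓ + 1) : ℕ) • φ (Pi.single j 1) = 0 := by
        rw [← map_nsmul]
        apply hφΛ
        refine AddSubgroup.mem_sup_right ⟨Pi.single j 1, ?_⟩
        ext i
        change (p : ℤ) ^ (ℓ + 1) * _ = _
        rw [Pi.smul_apply, nsmul_eq_mul]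
        push_cast
        rfl
      have h2 : ((((p ^ (ℓ + 1) : ℕ) : ℚ) * q : ℚ) : AddCircle (1 : ℚ)) = 0 := by
        rw [← h1, ← hq, ← nsmul_eq_mul]
        rfl
      rw [AddCircle.coe_eq_zero_iff] at h2
      obtain ⟨n, hn⟩ := h2
      refine ⟨n, ?_⟩
      rw [← hq]
      change (q : AddCircle (1 : ℚ)) = _
      congr 1
      rw [zsmul_eq_mul, mul_one] at hn
      rw [hn]
      push_cast
      field_simp
    choose l hl using hl
    have hφ : ∀ x : Fin s → ℤ, φ x = (((∑ j, (x j : ℚ) * (l j : ℚ)) / (p : ℚ) ^ (ℓ + 1) : ℚ) :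
        AddCircle (1 : ℚ)) := by
      intro x
      have h1 : x = ∑ j, x j • (Pi.single j 1 : Fin s → ℤ) := by
        ext i
        rw [Finset.sum_apply]
        simp [Pi.single_apply]
      have h2 : φ x = ∑ j, x j • φ (Pi.single j 1) := by
        conv_lhs => rw [h1]
        rw [map_sum]
        refine Finset.sum_congr rfl fun j _ => ?_
        rw [map_zsmul]
      rw [h2, Finset.sum_div]
      have h3 : ((∑ j, (x j : ℚ) * (l j : ℚ) / (p : ℚ) ^ (ℓ + 1) : ℚ) : AddCircle (1 : ℚ)) =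
          ∑ j, (((x j : ℚ) * (l j : ℚ) / (p : ℚ) ^ (ℓ + 1) : ℚ) : AddCircle (1 : ℚ)) :=
        map_sum (QuotientAddGroup.mk' (AddSubgroup.zmultiples (1 : ℚ))) _ _
      rw [h3]
      refine Finset.sum_congr rfl fun j _ => ?_
      rw [hl j, ← AddCircle.coe_zsmul, zsmul_eq_mul, mul_div_assoc]
    have hdvd : ∀ i, (p : ℤ) ^ (ℓ + 1) ∣ ∑ j, l j * M j i := by
      intro i
      have h1 := hφΛ (fun j => M j i) (AddSubgroup.mem_sup_left ⟨Pi.single i 1, by
        ext j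
        change ∑ i', M j i' * (Pi.single i 1 : ι → ℤ) i' = M j i
        simp [Pi.single_apply]⟩)
      rw [hφ, AddCircle.coe_eq_zero_iff] at h1
      obtain ⟨n, hn⟩ := h1
      rw [zsmul_eq_mul, mul_one, eq_div_iff (pow_ne_zero _ hpq)] at hn
      refine ⟨n, ?_⟩
      have h2 : ((∑ j, l j * M j i : ℤ) : ℚ) = (((p : ℤ) ^ (ℓ + 1) * n : ℤ) : ℚ) := by
        push_cast
        rw [mul_comm _ (n : ℚ), hn]
        exact Finset.sum_congr rfl fun j _ => mul_comm _ _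
      exact_mod_cast h2
    have hex : ∃ j₀, ¬ (p : ℤ) ∣ l j₀ := by
      by_contra hall
      push Not at hall
      apply hφb
      rw [hφ, AddCircle.coe_eq_zero_iff]
      choose m hm using hall
      refine ⟨∑ j, b j * m j, ?_⟩
      rw [zsmul_eq_mul, mul_one, eq_div_iff (pow_ne_zero _ hpq)]
      push_cast
      rw [Finset.sum_mul]
      refine Finset.sum_congr rfl fun j _ => ?_
      rw [hm j]
      push_cast
      ring
    obtain ⟨j₀, hj₀⟩ := hex
    have hcop : IsCoprime (l j₀) ((p : ℤ) ^ ℓ) := by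
      apply IsCoprime.pow_right
      have := (Nat.prime_iff_prime_int.1 hp)
      exact (isCoprime_comm.1 ((this.coprime_iff_not_dvd).2 hj₀))
    obtain ⟨u, v, huv⟩ := hcop
    refine h j₀ (fun j => if j = j₀ then 1 else u * l j) (if_pos rfl) ?_
    intro i
    have h1 : ∑ j, (if j = j₀ then 1 else u * l j) * M j i =
        u * ∑ j, l j * M j i + (p : ℤ) ^ ℓ * (v * M j₀ i) := by
      rw [Finset.mul_sum, ← Finset.add_sum_erase _ _ (Finset.mem_univ j₀),
        ← Finset.add_sum_erase _ (fun j => u * (l j * M j i)) (Finset.mem_univ j₀),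
        if_pos rfl]
      have h2 : ∑ j ∈ Finset.univ.erase j₀, (if j = j₀ then 1 else u * l j) * M j i =
          ∑ j ∈ Finset.univ.erase j₀, u * (l j * M j i) := by
        refine Finset.sum_congr rfl fun j hj => ?_
        rw [if_neg (Finset.ne_of_mem_erase hj), mul_assoc]
      rw [h2]
      have h3 : (1 : ℤ) * M j₀ i = (u * l j₀ + v * (p : ℤ) ^ ℓ) * M j₀ i := by rw [huv]
      rw [h3]
      ring
    rw [h1]
    exact dvd_add (Dvd.dvd.mul_left ((pow_dvd_pow (p : ℤ) (Nat.le_succ ℓ)).trans (hdvd i)) u)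
      (dvd_mul_right _ _)
  obtain ⟨_, ⟨z, rfl⟩, _, ⟨y, rfl⟩, hzy⟩ := AddSubgroup.mem_sup.1 key
  refine ⟨z, fun j => ⟨-y j, ?_⟩⟩
  have h1 := congrFun hzy j
  change ∑ i, M j i * z i + (p : ℤ) ^ (ℓ + 1) * y j = (p : ℤ) ^ ℓ * b j at h1
  rw [← h1]
  ring


open Pool.Agent.Y716.Q Pool.Agent.Y716.C

/-- **C5.** -/
theorem stable (ι : Type*) [Fintype ι] (s : ℕ) : StableStmt ι s := by
  classical
  intro w ℓ hℓ f N c hN hfin
  have hex : ∀ p ∈ primesUpTo w, ∃ (r : ι) (x : ι → ℤ), x r = 1 ∧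
      (∀ j, (p : ℤ) ^ (2 * ℓ + 1) ∣ MvPolynomial.eval x (f j)) ∧
      ∀ a : ℕ, p ^ a ∣ N → ∀ i, (p : ℤ) ^ a ∣ x i - c i := fun p hp => (hfin p hp).1
  choose! rP xP hr hval hxPN using hex
  have hcopZ : ∀ p ∈ primesUpTo w, ∀ q ∈ primesUpTo w, p ≠ q → ∀ a b : ℕ,
      IsCoprime ((p : ℤ) ^ a) ((q : ℤ) ^ b) := by
    intro p hp q hq hne a b
    exact (Nat.isCoprime_iff_coprime.mpr (primes_coprime hp hq hne)).pow
  -- Chinese remainder theorem
  have hcrt : ∀ i, ∃ y : ℤ, ∀ p ∈ primesUpTo w, (p : ℤ) ^ (2 * ℓ + 1) ∣ y - xP p i := by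
    intro i
    have := Ideal.exists_forall_sub_mem_ideal (R := ℤ)
      (I := fun p : primesUpTo w => Ideal.span {((p : ℕ) : ℤ) ^ (2 * ℓ + 1)}) (by
        intro p q hpq
        simp only [Function.onFun]
        rw [Ideal.isCoprime_span_singleton_iff]
        exact hcopZ _ p.2 _ q.2 (fun h => hpq (Subtype.ext h)) _ _) (fun p => xP p i)
    obtain ⟨y, hy⟩ := this
    exact ⟨y, fun p hp => Ideal.mem_span_singleton.mp (hy ⟨p, hp⟩)⟩
  choose xc hxc using hcrt
  have hxc' : ∀ p ∈ primesUpTo w, ∀ i, (p : ℤ) ^ (2 * ℓ + 1) ∣ xc i - xP p i :=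
    fun p hp i => hxc i p hp
  obtain ⟨W, hW⟩ : ∃ W : ℕ, W = ∏ p ∈ primesUpTo w, p := ⟨_, rfl⟩
  have hW0 : 0 < W := by
    rw [hW]
    exact Finset.prod_pos (fun p hp => (mem_primesUpTo.mp hp).2.pos)
  have hpW : ∀ p ∈ primesUpTo w, p ∣ W := fun p hp => by
    rw [hW]; exact Finset.dvd_prod_of_mem (fun p => p) hp
  have hSJ : W ^ (ℓ + 1) * W ^ ℓ = (∏ p ∈ primesUpTo w, p) ^ (2 * ℓ + 1) := by
    rw [← hW, ← pow_add]; congr 1; ring
  have hNS : (N : ℤ) ∣ (W ^ (ℓ + 1) : ℕ) := by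
    apply dvd_of_prime_pow
    intro p a hp ha
    obtain _ | a := a
    · rw [pow_zero]; exact one_dvd _
    obtain ⟨h1, h2⟩ := hN p a hp ha
    have hpw : p ∈ primesUpTo w := mem_primesUpTo.mpr ⟨h1, hp⟩
    have h4 : p ^ (a + 1) ∣ W ^ (ℓ + 1) :=
      (pow_dvd_pow p (by omega : a + 1 ≤ ℓ + 1)).trans (pow_dvd_pow_of_dvd (hpW p hpw) _)
    exact_mod_cast h4
  have hNx : ∀ i, (N : ℤ) ∣ xc i - c i := by
    intro i
    apply dvd_of_prime_pow
    intro p a hp ha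
    obtain _ | a := a
    · rw [pow_zero]; exact one_dvd _
    obtain ⟨h1, h2⟩ := hN p a hp ha
    have hpw : p ∈ primesUpTo w := mem_primesUpTo.mpr ⟨h1, hp⟩
    have h3 := (pow_dvd_pow (p : ℤ) (by omega : a + 1 ≤ 2 * ℓ + 1)).trans (hxc' p hpw i)
    have h4 := hxPN p hpw (a + 1) ha i
    have := dvd_add h3 h4
    simpa using this
  refine ⟨W ^ (ℓ + 1), W ^ ℓ, xc, ?_, hSJ, hNS, hNx⟩
  refine { hS := pow_pos hW0 _, hJ := pow_pos hW0 _, hJS := pow_dvd_pow _ (Nat.le_succ _),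
           hval := ?_, hPJ := ?_, hsurj := ?_, hprim := ?_, hSW := ?_ }
  · intro j
    rw [hSJ, ← Finset.prod_pow]
    push_cast
    apply Finset.prod_dvd_of_coprime
    · intro p hp q hq hne
      exact hcopZ p hp q hq hne _ _
    intro p hp
    have := dvd_add (Pool.Agent.Y67.HP.eval_congr_dvd' (f j) (hxc' p hp)) (hval p hp j)
    simpa using this
  · intro p hp1 hp2
    rw [pow_succ']
    exact Nat.mul_dvd_mul (hpW p (mem_primesUpTo.mpr ⟨hp2, hp1⟩)) (dvd_refl _)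
  · intro p hp1 hp2 b
    have hp : p ∈ primesUpTo w := mem_primesUpTo.mpr ⟨hp2, hp1⟩
    have hbad := (hfin p hp).2
    have hcong : ∀ j i, (p : ℤ) ^ (2 * ℓ + 1) ∣ jac f xc j i - jac f (xP p) j i := fun j i =>
      Pool.Agent.Y67.HP.eval_congr_dvd' _ (hxc' p hp)
    obtain ⟨z, hz⟩ := surj (jac f xc) hp1 ℓ (by
      intro j₀ l hl hdiv
      refine hbad ⟨rP p hp, xP p, j₀, l, hr p hp, hl, ?_, ?_⟩
      · intro j
        push_cast
        exact (pow_dvd_pow (p : ℤ) (by omega)).trans (hval p hp j)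
      · intro i
        push_cast
        have h1 : (p : ℤ) ^ ℓ ∣ ∑ j, l j * (jac f xc j i - jac f (xP p) j i) :=
          Finset.dvd_sum fun j _ => Dvd.dvd.mul_left
            ((pow_dvd_pow (p : ℤ) (by omega : ℓ ≤ 2 * ℓ + 1)).trans (hcong j i)) _
        have h2 : ∑ j, l j * jac f (xP p) j i = ∑ j, l j * jac f xc j i -
            ∑ j, l j * (jac f xc j i - jac f (xP p) j i) := by
          rw [← Finset.sum_sub_distrib]
          exact Finset.sum_congr rfl fun j _ => by ring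
        rw [h2]
        exact dvd_sub (hdiv i) h1) b
    obtain ⟨V, hV⟩ := hpW p hp
    refine ⟨fun i => (V : ℤ) ^ ℓ * z i, fun j => ?_⟩
    obtain ⟨y, hy⟩ := hz j
    refine ⟨y, ?_⟩
    have h1 : ∑ i, jac f xc j i * ((V : ℤ) ^ ℓ * z i) = (V : ℤ) ^ ℓ * ∑ i, jac f xc j i * z i := by
      rw [Finset.mul_sum]
      exact Finset.sum_congr rfl fun i _ => by ring
    have h2 : ∑ i, jac f xc j i * z i = p ^ ℓ * b j + (p : ℤ) ^ (ℓ + 1) * y := by
      rw [← hy]; ring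
    rw [h1, h2, hV]
    push_cast
    ring
  · intro p hp1 hp2
    have hp : p ∈ primesUpTo w := mem_primesUpTo.mpr ⟨hp2, hp1⟩
    refine ⟨rP p hp, fun hd => ?_⟩
    have h1 := (dvd_pow_self (p : ℤ) (by omega : 2 * ℓ + 1 ≠ 0)).trans (hxc' p hp (rP p hp))
    rw [hr p hp] at h1
    have := dvd_sub hd h1
    rw [sub_sub_cancel] at this
    have h3 : (p : ℕ) ∣ 1 := by exact_mod_cast this
    exact hp1.one_lt.ne' (Nat.dvd_one.mp h3)
  · intro p hp1 hpS
    have hpS' := hp1.dvd_of_dvd_pow hpS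
    rw [hW] at hpS'
    obtain ⟨q, hq, hpq⟩ := (Prime.dvd_finset_prod_iff hp1.prime _).mp hpS'
    have h2 := (mem_primesUpTo.mp hq)
    have h3 := (Nat.prime_dvd_prime_iff_eq hp1 h2.2).mp hpq
    rw [h3]; exact h2.1

end Pool.Agent.Y813.C5
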